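import Mathlib
import Pool.Agent.W26.GP.Final

/-!
`B(ℓ_p)` is not a Grothendieck space, for every `1 < p < ∞`, `p ≠ 2`, over the real or complex
numbers.
-/

set_option autoImplicit false
open Filter Topology
open scoped ENNReal

namespace Pool.Agent.Results.MP_ce6b34_an.NotGrothendieck

/-- A normed space `E` over `𝕜` is a *Grothendieck space* if every weak* convergent sequence
`φ n → φ₀` in its dual converges weakly, that is, `Λ (φ n) → Λ φ₀` for all `Λ` in the bidual. -/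
def IsGrothendieckSpace (𝕜 : Type) [RCLike 𝕜] (E : Type) [NormedAddCommGroup E]
    [NormedSpace 𝕜 E] : Prop :=
  ∀ (φ : ℕ → (E →L[𝕜] 𝕜)) (φ₀ : E →L[𝕜] 𝕜),
    (∀ x : E, Tendsto (fun n => φ n x) atTop (𝓝 (φ₀ x))) →
    ∀ Λ : (E →L[𝕜] 𝕜) →L[𝕜] 𝕜, Tendsto (fun n => Λ (φ n)) atTop (𝓝 (Λ φ₀))

/-- For the real or complex scalar field `𝕜` and every exponent `1 < p < ∞` with `p ≠ 2`, the
Banach space of all bounded operators on `ℓ_p` is not a Grothendieck space. -/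
theorem result (𝕜 : Type) [RCLike 𝕜] (p : ℝ≥0∞) [Fact (1 ≤ p)] (h1 : 1 < p) (htop : p < ∞)
    (h2 : p ≠ 2) :
    ¬ IsGrothendieckSpace 𝕜 (lp (fun _ : ℕ => 𝕜) p →L[𝕜] lp (fun _ : ℕ => 𝕜) p) := by
  obtain ⟨f, C, V, hf, hV, hfV⟩ := W26.GP.main_data (𝕜 := 𝕜) (p := p) h1 htop.ne h2
  exact W26.GP.not_grothendieck f C hf V hV hfV

end Pool.Agent.Results.MP_ce6b34_an.NotGrothendieck
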